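import Mathlib
import Pool.Agent.Work.MP_4d2785_al.Final

/-!
# Approximate subgroups of `GL_d` have abelian pieces of size polynomial in the dimension
-/

open scoped Pointwise

namespace Pool.Agent.Results.MP_4d2785_al.PolynomialPieces

open Pool.Agent.Work.MP_4d2785_al

/-- `M` is polynomially bounded: `M d ≤ C * d ^ C` for all `d ≥ 1`, for some `C > 0`. -/
def PolyBdd (M : ℕ → ℝ) : Prop :=
  ∃ C : ℝ, 0 < C ∧ ∀ d : ℕ, 1 ≤ d → M d ≤ C * (d : ℝ) ^ C

theorem PP_le {D : ℕ} (hD : 1 ≤ D) : PP D ≤ 78 * D ^ 10 := by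
  have hp : ∀ a b : ℕ, a ≤ b → D ^ a ≤ D ^ b := fun a b h => Nat.pow_le_pow_right hD h
  have h12 := hp 1 2 (by norm_num)
  have h1 : D ≤ D ^ 3 := by simpa using hp 1 3 (by norm_num)
  have hs2 : s2 D ≤ 7 * D ^ 5 := by
    unfold s2
    have h2 : D * (D + 1) * (D + 2) ≤ D * (2 * D) * (3 * D) := by gcongr <;> omega
    calc (D + D * (D + 1) * (D + 2)) * D ^ 2 ≤ (D ^ 3 + D * (2 * D) * (3 * D)) * D ^ 2 := by
          gcongr
      _ = 7 * D ^ 5 := by ring
  have hbb : bb D ≤ 18 * D ^ 2 := by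
    unfold bb
    have h2 : 1 ≤ D ^ 2 := Nat.one_le_pow _ _ hD
    have h3 : D ≤ D ^ 2 := by simpa using hp 1 2 (by norm_num)
    calc 1 + (9 + 8 * D) * D = 1 + 9 * D + 8 * D ^ 2 := by ring
      _ ≤ D ^ 2 + 9 * D ^ 2 + 8 * D ^ 2 := by gcongr
      _ = 18 * D ^ 2 := by ring
  have hee : ∀ s c n : ℕ, s ≤ c * D ^ n → 1 ≤ n → ee D s ≤ (c + 6) * D ^ (n + 2) := by
    intro s c n hs hn
    unfold ee
    have h2 : D ≤ D ^ n := by simpa using hp 1 n hn
    calc (s + 3 * (D + 1)) * D * D ≤ (c * D ^ n + 3 * (2 * D)) * D * D := by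
          gcongr; omega
      _ ≤ (c * D ^ n + 3 * (2 * D ^ n)) * D * D := by gcongr
      _ = (c + 6) * D ^ (n + 2) := by ring
  have he2 := hee (s2 D) 7 5 hs2 (by norm_num)
  have htt : tt D ≤ 32 * D ^ 7 := by
    unfold tt
    have h2 := hp 2 7 (by norm_num)
    have h3 : 1 ≤ D ^ 7 := Nat.one_le_pow _ _ hD
    calc ee D (s2 D) + bb D + 1 ≤ (7 + 6) * D ^ (5 + 2) + 18 * D ^ 2 + 1 := by gcongr
      _ ≤ 13 * D ^ 7 + 18 * D ^ 7 + D ^ 7 := by gcongr
      _ = 32 * D ^ 7 := by ring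
  have hl : lmax D ≤ 16 * D ^ 2 := by
    unfold lmax
    calc 4 * (D + 1) ^ 2 ≤ 4 * (2 * D) ^ 2 := by gcongr; omega
      _ = 16 * D ^ 2 := by ring
  have hs1 : s1 D ≤ 54 * D ^ 8 := by
    unfold s1
    have h2 := hp 2 7 (by norm_num)
    have h3 : 1 ≤ D ^ 7 := Nat.one_le_pow _ _ hD
    calc (lmax D + 6 + tt D) * D ≤ (16 * D ^ 2 + 6 + 32 * D ^ 7) * D := by gcongr
      _ ≤ (16 * D ^ 7 + 6 * D ^ 7 + 32 * D ^ 7) * D := by gcongr; omega
      _ = 54 * D ^ 8 := by ring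
  have he1 := hee (s1 D) 54 8 hs1 (by norm_num)
  unfold PP
  have h2 := hp 2 10 (by norm_num)
  calc ee D (s1 D) + bb D ≤ (54 + 6) * D ^ (8 + 2) + 18 * D ^ 2 := by gcongr
    _ ≤ 60 * D ^ 10 + 18 * D ^ 10 := by gcongr
    _ = 78 * D ^ 10 := by ring

theorem PP_pos (D : ℕ) : 1 ≤ PP D := by
  unfold PP bb
  omega

theorem map_inj (F : Type*) [Field F] (d : ℕ) : Function.Injective
    (Matrix.GeneralLinearGroup.map (n := Fin d) (algebraMap F (AlgebraicClosure F))) := by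
  intro a b hab
  apply Units.ext
  have h1 := congrArg Units.val hab
  ext i j
  have h2 := congrFun (congrFun h1 i) j
  exact (algebraMap F (AlgebraicClosure F)).injective h2

/-- **Main theorem.** With `M₁ = 1` and `M₂ d = 78 d ^ 20`, both polynomially bounded: for every
field `F`, every `d ≥ 1` and every finite `K`-approximate subgroup `A` of `GL_d(F)` there is an
abelian subgroup `H` with `|A ^ 2 ∩ H| ≥ (2 K) ^ (-M₁ d) |A ^ 2| ^ (1 / M₂ d)`. -/
theorem result :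
    ∃ M₁ M₂ : ℕ → ℝ, (∀ d, M₁ d = 1) ∧ (∀ d, M₂ d = 78 * (d : ℝ) ^ 20) ∧
      PolyBdd M₁ ∧ PolyBdd M₂ ∧
      ∀ (F : Type*) [Field F] (d : ℕ), 1 ≤ d → ∀ (K : ℝ) (A : Finset (GL (Fin d) F)),
        IsApproximateSubgroup K (A : Set (GL (Fin d) F)) →
        ∃ H : Subgroup (GL (Fin d) F), (∀ x ∈ H, ∀ y ∈ H, x * y = y * x) ∧
          (2 * K) ^ (-M₁ d) * (((A : Set (GL (Fin d) F)) ^ 2).ncard : ℝ) ^ (1 / M₂ d) ≤
            (((A : Set (GL (Fin d) F)) ^ 2 ∩ (H : Set (GL (Fin d) F))).ncard : ℝ) := by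
  classical
  refine ⟨fun _ => 1, fun d => 78 * (d : ℝ) ^ 20, fun _ => rfl, fun _ => rfl, ?_, ?_, ?_⟩
  · refine ⟨1, one_pos, ?_⟩
    intro d hd
    rw [one_mul, Real.rpow_one]
    have h1 : (1 : ℝ) ≤ d := by exact_mod_cast hd
    exact h1
  · refine ⟨78, by norm_num, ?_⟩
    intro d hd
    have h1 : (1 : ℝ) ≤ d := by exact_mod_cast hd
    have h2 : (d : ℝ) ^ 20 ≤ (d : ℝ) ^ (78 : ℝ) := by
      rw [← Real.rpow_natCast]
      apply Real.rpow_le_rpow_of_exponent_le h1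
      norm_num
    simp only
    gcongr
  · intro F _ d hd K A hA
    have hK : 1 ≤ K := hA.one_le
    set Fb := AlgebraicClosure F with hFb
    set φ := Matrix.GeneralLinearGroup.map (n := Fin d) (algebraMap F Fb) with hφ
    have hφinj : Function.Injective φ := map_inj F d
    set A' : Finset (Matrix (Fin d) (Fin d) Fb)ˣ := A.image φ with hA'
    have hA'2 : IsApproximateSubgroup K (A' : Set (Matrix (Fin d) (Fin d) Fb)ˣ) := by
      rw [hA', Finset.coe_image]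
      exact hA.image φ
    -- maximal abelian piece
    set S : Set ℕ := {n | ∃ H : Subgroup (Matrix (Fin d) (Fin d) Fb)ˣ,
      (∀ x ∈ H, ∀ y ∈ H, x * y = y * x) ∧ nc A' 2 (H : Set _) = n} with hS
    have hSne : S.Nonempty := by
      refine ⟨_, ⊥, ?_, rfl⟩
      intro x hx y hy
      rw [Subgroup.mem_bot] at hx hy
      rw [hx, hy]
    have hSb : BddAbove S := by
      refine ⟨(pw A' 2).card, ?_⟩
      rintro n ⟨H, _, rfl⟩
      exact Finset.card_filter_le _ _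
    obtain ⟨H₀, hH₀c, hH₀⟩ := Nat.sSup_mem hSne hSb
    set q : ℝ := ((sSup S : ℕ) : ℝ) with hq
    have hqmax : ∀ H : Subgroup (Matrix (Fin d) (Fin d) Fb)ˣ,
        (∀ x ∈ H, ∀ y ∈ H, x * y = y * x) →
        (nc A' 2 (H : Set (Matrix (Fin d) (Fin d) Fb)ˣ) : ℝ) ≤ q := by
      intro H hH
      rw [hq]
      exact_mod_cast le_csSup hSb ⟨H, hH, rfl⟩
    have hq1 : 1 ≤ q := by
      have h1 : 1 ≤ nc A' 2 (H₀ : Set (Matrix (Fin d) (Fin d) Fb)ˣ) :=
        Finset.card_pos.mpr ⟨1, mem_pc.mpr ⟨one_mem_pow hA'2 2, H₀.one_mem⟩⟩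
      rw [hH₀] at h1
      rw [hq]
      exact_mod_cast h1
    have hmain := main_bound (F := Fb) hA'2 hq1 hqmax
    -- transfer of cardinalities
    have hpw : ∀ g, g ∈ pw A' 2 ↔ ∃ a ∈ (A : Set (GL (Fin d) F)) ^ 2, φ a = g := by
      intro g
      have h1 : (pw A' 2 : Set (Matrix (Fin d) (Fin d) Fb)ˣ) =
          φ '' ((A : Set (GL (Fin d) F)) ^ 2) := by
        rw [coe_pw, hA', Finset.coe_image, Set.image_pow]
      rw [← Finset.mem_coe, h1]
      rfl
    have hcardH : ∀ H : Subgroup (Matrix (Fin d) (Fin d) Fb)ˣ,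
        ((A : Set (GL (Fin d) F)) ^ 2 ∩ (H.comap φ : Set (GL (Fin d) F))).ncard =
          nc A' 2 (H : Set (Matrix (Fin d) (Fin d) Fb)ˣ) := by
      intro H
      rw [← Set.ncard_image_of_injective _ hφinj]
      unfold nc
      rw [← Set.ncard_coe_finset]
      congr 1
      ext g
      rw [Finset.mem_coe, mem_pc, hpw]
      constructor
      · rintro ⟨a, ⟨ha1, ha2⟩, rfl⟩
        exact ⟨⟨a, ha1, rfl⟩, ha2⟩
      · rintro ⟨⟨a, ha1, rfl⟩, ha2⟩
        exact ⟨a, ⟨ha1, ha2⟩, rfl⟩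
    have hcard : ((A : Set (GL (Fin d) F)) ^ 2).ncard = nc A' 2 Set.univ := by
      have h1 := hcardH ⊤
      rw [Subgroup.comap_top] at h1
      simpa using h1
    refine ⟨H₀.comap φ, ?_, ?_⟩
    · intro x hx y hy
      apply hφinj
      rw [map_mul, map_mul]
      exact hH₀c _ hx _ hy
    · rw [hcardH, hH₀, hcard]
      change (2 * K) ^ (-(1 : ℝ)) * (nc A' 2 Set.univ : ℝ) ^ (1 / (78 * (d : ℝ) ^ 20)) ≤ q
      have hfr : Module.finrank Fb (Matrix (Fin d) (Fin d) Fb) = d * d := by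
        rw [Module.finrank_matrix]; simp
      rw [hfr] at hmain
      have hD : 1 ≤ d * d := Nat.mul_pos hd hd
      have hP := PP_le hD
      have hL1 : 1 ≤ 2 * K * q := by nlinarith
      have hd1 : (1 : ℝ) ≤ d := by exact_mod_cast hd
      have hM : (0 : ℝ) < 78 * (d : ℝ) ^ 20 := by positivity
      have h1 : (nc A' 2 Set.univ : ℝ) ≤ (2 * K * q) ^ (78 * (d : ℝ) ^ 20) := by
        refine hmain.trans ?_
        rw [← Real.rpow_natCast]
        apply Real.rpow_le_rpow_of_exponent_le hL1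
        have h2 : ((PP (d * d) : ℕ) : ℝ) ≤ ((78 * (d * d) ^ 10 : ℕ) : ℝ) := by exact_mod_cast hP
        refine h2.trans (le_of_eq ?_)
        push_cast
        ring
      have h2 : (nc A' 2 Set.univ : ℝ) ^ (1 / (78 * (d : ℝ) ^ 20)) ≤ 2 * K * q := by
        calc (nc A' 2 Set.univ : ℝ) ^ (1 / (78 * (d : ℝ) ^ 20))
            ≤ ((2 * K * q) ^ (78 * (d : ℝ) ^ 20)) ^ (1 / (78 * (d : ℝ) ^ 20)) := by
              apply Real.rpow_le_rpow (by positivity) h1 (by positivity)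
          _ = 2 * K * q := by
              rw [← Real.rpow_mul (by positivity), mul_one_div_cancel hM.ne', Real.rpow_one]
      rw [Real.rpow_neg_one, inv_mul_le_iff₀ (by positivity)]
      exact h2

end Pool.Agent.Results.MP_4d2785_al.PolynomialPieces
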